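import Pool.Agent.BSpi.BS
import Pool.Agent.BSpi.Char

set_option autoImplicit false

namespace Pool.Agent.Results.MP_c744b8_al.CharacteristicForm

open Pool.Agent.BSpi

/-- Let `N` be a finite group and `π` a set of primes. Then `N` is a `BS_π`-group whenever it is
(isomorphic to) a normal subgroup of a finite `BS_π`-group if and only if the following holds: if `N`
is not a `BS_π`-group then `N` has an element `y` outside its normal `π`-subgroups such that `y` and
`β y` generate a `π`-group for every automorphism `β` of `N`. -/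
theorem result (π : Set ℕ) (N : Type) [Group N] [Finite N] :
    (∀ (G : Type) [Group G] [Finite G] (f : N →* G), Function.Injective f → f.range.Normal →
      IsBS π G → IsBS π N) ↔
    (¬ IsBS π N → ∃ y : N, (∀ M : Subgroup N, M.Normal → IsPi π M → y ∉ M) ∧
      ∀ β : MulAut N, IsPi π (Subgroup.closure {y, β y})) := by
  constructor
  · intro hQ hN
    by_contra hcon
    push Not at hcon
    apply hN
    -- there is a prime outside `π`
    obtain ⟨q, hq, hqπ⟩ : ∃ q : ℕ, q.Prime ∧ q ∉ π := by
      by_contra h
      push Not at h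
      exact hN fun x _ p hp _ => h p hp
    have : NeZero q := ⟨hq.ne_zero⟩
    have hnormal : (emb : N →* Big N q).range.Normal := by
      constructor
      rintro _ ⟨n, rfl⟩ g
      exact ⟨_, (conj_emb g n).symm⟩
    refine hQ (Big N q) emb emb_injective hnormal ?_
    -- the big group is a `BS_π`-group
    intro g hg
    have hg' : ∀ c : Big N q, IsPi π (Subgroup.closure {g, c * g * c⁻¹}) := fun c =>
      hg g _ (IsConj.refl g) (isConj_iff.2 ⟨c, rfl⟩)
    obtain ⟨n, rfl⟩ := bad_big hq hqπ g hg'
    have hn : ∀ β : MulAut N, IsPi π (Subgroup.closure {n, β n}) := by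
      intro β
      have h1 := hg' (SemidirectProduct.inr (SemidirectProduct.inr β))
      rw [aut_emb, ← map_pair, isPi_map_iff _ emb_injective] at h1
      exact h1
    obtain ⟨R, hR, hRπ, hmax⟩ := exists_radical π N
    have hnR : n ∈ R := by
      by_contra hnR
      obtain ⟨β, hβ⟩ := hcon n fun M hM hMπ hnM => hnR (hmax M hM hMπ hnM)
      exact hβ (hn β)
    -- the radical is characteristic
    have hchar : ∀ β : MulAut N, ∀ m ∈ R, β m ∈ R := by
      intro β m hm
      refine hmax (R.map β.toMonoidHom) (hR.map _ β.surjective) (hRπ.map _) ?_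
      exact ⟨m, hm, rfl⟩
    refine BSAt.of_inRad ⟨R.map emb, ⟨?_⟩, hRπ.map _, Subgroup.mem_map_of_mem _ hnR⟩
    rintro _ ⟨m, hm, rfl⟩ c
    rw [conj_emb]
    exact Subgroup.mem_map_of_mem _ (hR.conj_mem _ (hchar _ m hm) _)
  · intro h G _ _ f hf hfn hG
    by_contra hN
    obtain ⟨y, hy1, hy2⟩ := h hN
    let e : N ≃* f.range := MonoidHom.ofInjective hf
    have he : ∀ n : N, ((e n : f.range) : G) = f n := fun n => rfl
    have hbad : ∀ g : G, IsPi π (Subgroup.closure {f y, g * f y * g⁻¹}) := by
      intro g
      have hc := hfn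
      let β : MulAut N := (e.trans (MulAut.conjNormal g)).trans e.symm
      have h1 : f (β y) = g * f y * g⁻¹ := by
        rw [← he]
        change ((e (e.symm ((MulAut.conjNormal g) (e y))) : f.range) : G) = _
        rw [e.apply_symm_apply]
        rfl
      rw [← h1, ← map_pair]
      exact (hy2 β).map f
    obtain ⟨K, hK, hKπ, hyK⟩ := rel_of_isBS hG ⊤ (f y) trivial hbad
    refine hy1 (K.comap f) (hK.comap f) ?_ hyK
    rw [← isPi_map_iff f hf]
    exact hKπ.mono (Subgroup.map_comap_le _ _)

end Pool.Agent.Results.MP_c744b8_al.CharacteristicForm
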