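import Pool.Agent.BSpi.Listed

set_option autoImplicit false

namespace Pool.Agent.Results.MP_c744b8_al.FactorReduction

open Pool.Agent.BSpi

/-- Let `G` be a finite `BS_π`-group and `N` a normal subgroup of `G`. Suppose that for every odd
prime `r` in `π` all `r`-subgroups of `N` are cyclic or every nonabelian composition factor `S` of `N`
is an alternating group, some `PSL(n, F)`, `PSp(2n, F)`, `PSU(n, F)` or `PΩ(V, Q)` over a finite
field, rigid at `r`, or good at `r`. Then `N` is a `BS_π`-group. -/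
theorem result (π : Set ℕ) (G : Type) [Group G] [Finite G] (hG : IsBS π G) (N : Subgroup G)
    [N.Normal]
    (h : ∀ r ∈ π, r.Prime → r ≠ 2 → CyclicAt r N ∨
      ∀ (S : Type) [Group S] [Finite S], IsSimpleGroup S → (∃ a b : S, a * b ≠ b * a) →
        CompFactor S N →
        Listed S ∨ RigidAt r S ∨ GoodAt π r S) :
    IsBS π N := by
  have hyp : Hyp π N := by
    intro r hrπ hr hr2
    rcases h r hrπ hr hr2 with h1 | h1
    · exact Or.inl h1
    · refine Or.inr fun S _ _ hS hS2 hc => ?_
      rcases h1 S hS hS2 hc with h2 | h2 | h2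
      · exact h2.goodAt hS hS2 hr hr2
      · exact h2.goodAt hS hS2 hr
      · exact h2
  intro x hx
  have h1 : InRad π (x : G) := by
    refine relative _ G N rfl hyp (rel_of_isBS hG N) x x.2 fun m hm => ?_
    have h2 := hx x (⟨m, hm⟩ * x * ⟨m, hm⟩⁻¹) (IsConj.refl x) (isConj_iff.2 ⟨_, rfl⟩)
    have h3 := h2.map N.subtype
    rw [map_pair] at h3
    exact h3
  obtain ⟨M, hM, hMπ, hxM⟩ := h1
  rw [← isPi_map_iff N.subtype N.subtype_injective]
  refine hMπ.mono ?_
  rw [MonoidHom.map_closure, Subgroup.closure_le]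
  rintro _ ⟨y, hy, rfl⟩
  obtain ⟨c, rfl⟩ := isConj_iff.1 (show IsConj x y from hy)
  exact hM.conj_mem _ hxM _

end Pool.Agent.Results.MP_c744b8_al.FactorReduction
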