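import Mathlib

set_option autoImplicit false

namespace Pool.Agent.Results.MP_c744b8_al.OddReduction

/-- The subgroup `H` is a `π`-group: each prime divisor of its order lies in `π`. -/
def IsPiSubgroup (π : Set ℕ) {G : Type} [Group G] (H : Subgroup G) : Prop :=
  ∀ p : ℕ, p.Prime → p ∣ Nat.card H → p ∈ π

/-- The condition in the definition of a `BS_π`-group, for the conjugacy class of `x`: if each two
conjugates of `x` generate a `π`-group then the whole class generates a `π`-group. -/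
def BSAt (π : Set ℕ) {G : Type} [Group G] (x : G) : Prop :=
  (∀ a b : G, IsConj x a → IsConj x b → IsPiSubgroup π (Subgroup.closure {a, b})) →
    IsPiSubgroup π (Subgroup.closure {y : G | IsConj x y})

/-- `G` is a `BS_π`-group. -/
def IsBS (π : Set ℕ) (G : Type) [Group G] : Prop := ∀ x : G, BSAt π x

section

variable {π : Set ℕ} {G : Type} [Group G]

lemma IsPiSubgroup.mono {H K : Subgroup G} (hK : IsPiSubgroup π K) (h : H ≤ K) :
    IsPiSubgroup π H := fun p hp hpH => hK p hp (hpH.trans (Subgroup.card_dvd_of_le h))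

lemma IsPiSubgroup.orderOf {H : Subgroup G} (hH : IsPiSubgroup π H) {x : G} (hx : x ∈ H) (p : ℕ)
    (hp : p.Prime) (h : p ∣ orderOf x) : p ∈ π :=
  hH p hp (h.trans (H.orderOf_dvd_natCard hx))

lemma isPi_of_orders [Finite G] {H : Subgroup G}
    (h : ∀ x ∈ H, ∀ p : ℕ, p.Prime → _root_.orderOf x = p → p ∈ π) : IsPiSubgroup π H := by
  intro p hp hpH
  have := Fact.mk hp
  obtain ⟨x, hx⟩ := exists_prime_orderOf_dvd_card' p hpH
  exact h x x.2 p hp (by rw [Subgroup.orderOf_coe]; exact hx)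

/-- There is a largest normal `π`-subgroup. -/
lemma exists_radical (π : Set ℕ) (G : Type) [Group G] [Finite G] : ∃ M : Subgroup G, M.Normal ∧
    IsPiSubgroup π M ∧ ∀ K : Subgroup G, K.Normal → IsPiSubgroup π K → K ≤ M := by
  classical
  have hfin : {K : Subgroup G | K.Normal ∧ IsPiSubgroup π K}.Finite := Set.toFinite _
  have hne : {K : Subgroup G | K.Normal ∧ IsPiSubgroup π K}.Nonempty :=
    ⟨⊥, inferInstance, fun p hp h => by
      rw [Subgroup.card_bot] at h
      exact absurd (Nat.dvd_one.1 h) hp.one_lt.ne'⟩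
  obtain ⟨M, hM, hmax⟩ := hfin.exists_maximal hne
  refine ⟨M, hM.1, hM.2, fun K hK hKπ => ?_⟩
  have hMn := hM.1
  have h1 : (M ⊔ K) ∈ {K : Subgroup G | K.Normal ∧ IsPiSubgroup π K} := by
    refine ⟨inferInstance, fun p hp h => ?_⟩
    have h2 : Nat.card (M ⊔ K : Subgroup G) ∣ Nat.card M * Nat.card K := by
      have h3 := Subgroup.relIndex_mul_relIndex ⊥ M (M ⊔ K) bot_le le_sup_left
      rw [Subgroup.relIndex_bot_left, Subgroup.relIndex_bot_left,
        Subgroup.relIndex_sup_left] at h3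
      rw [← h3]
      exact Nat.mul_dvd_mul_left _ (Subgroup.relIndex_dvd_card M K)
    rcases (Nat.Prime.dvd_mul hp).1 (h.trans h2) with h4 | h4
    · exact hM.2 p hp h4
    · exact hKπ p hp h4
  exact le_sup_right.trans (hmax h1 le_sup_left)

/-- A group generated by two involutions is dihedral. -/
lemma dihedral (X Y : G) (hX : X * X = 1) (hY : Y * Y = 1) (h : G)
    (hh : h ∈ Subgroup.closure {X, Y}) :
    (∃ i : ℤ, h = (X * Y) ^ i) ∨ ∃ i : ℤ, h = X * (X * Y) ^ i := by
  have hXi : X⁻¹ = X := inv_eq_of_mul_eq_one_left hX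
  have hYi : Y⁻¹ = Y := inv_eq_of_mul_eq_one_left hY
  have hconj : ∀ i : ℤ, X * (X * Y) ^ i * X = (X * Y) ^ (-i) := by
    intro i
    have h1 : X * (X * Y) * X⁻¹ = (X * Y)⁻¹ := by
      rw [mul_inv_rev, hXi, hYi, ← mul_assoc, hX, one_mul]
    have h2 : (X * (X * Y) * X⁻¹) ^ i = X * (X * Y) ^ i * X⁻¹ := conj_zpow
    rw [h1, hXi] at h2
    rw [← h2, inv_zpow, zpow_neg]
  have hconj' : ∀ i : ℤ, (X * Y) ^ i * X = X * (X * Y) ^ (-i) := by
    intro i
    rw [← hconj, ← mul_assoc, ← mul_assoc, hX, one_mul]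
  induction hh using Subgroup.closure_induction with
  | mem x hx =>
    rcases hx with rfl | rfl
    · exact Or.inr ⟨0, by rw [zpow_zero, mul_one]⟩
    · exact Or.inr ⟨1, by rw [zpow_one, ← mul_assoc, hX, one_mul]⟩
  | one => exact Or.inl ⟨0, by rw [zpow_zero]⟩
  | mul x y _ _ ihx ihy =>
    rcases ihx with ⟨i, rfl⟩ | ⟨i, rfl⟩ <;> rcases ihy with ⟨j, rfl⟩ | ⟨j, rfl⟩
    · exact Or.inl ⟨i + j, by rw [zpow_add]⟩
    · exact Or.inr ⟨-i + j, by rw [← mul_assoc, hconj', mul_assoc, zpow_add]⟩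
    · exact Or.inr ⟨i + j, by rw [mul_assoc, zpow_add]⟩
    · exact Or.inl ⟨-i + j, by rw [← mul_assoc, hconj, zpow_add]⟩
  | inv x _ ih =>
    rcases ih with ⟨i, rfl⟩ | ⟨i, rfl⟩
    · exact Or.inl ⟨-i, by rw [zpow_neg]⟩
    · exact Or.inr ⟨i, by rw [mul_inv_rev, hXi, ← zpow_neg, hconj', neg_neg]⟩

/-- The step: conjugates in `G` of an involution modulo `M`. -/
lemma step [Finite G] (M N : Subgroup G) [M.Normal] [N.Normal] (hM : IsPiSubgroup π M) (x : G)
    (hxN : x ∈ N) (hx2 : x ^ 2 ∈ M) (hxM : x ∉ M)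
    (hx : ∀ n ∈ N, IsPiSubgroup π (Subgroup.closure {x, n * x * n⁻¹})) (g : G) :
    IsPiSubgroup π (Subgroup.closure {x, g * x * g⁻¹}) := by
  have h2π : 2 ∈ π := by
    have h1 : 2 ∣ orderOf x := by
      by_contra hodd
      have hodd' : Odd (orderOf x) := Nat.not_even_iff_odd.1 fun h => hodd h.two_dvd
      obtain ⟨m, hm⟩ := hodd'
      apply hxM
      have h3 : x = (x ^ 2) ^ (m + 1) := by
        rw [← pow_mul, show 2 * (m + 1) = orderOf x + 1 by omega, pow_succ, pow_orderOf_eq_one,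
          one_mul]
      rw [h3]
      exact M.pow_mem hx2 _
    exact (hx 1 N.one_mem).orderOf (Subgroup.subset_closure (Or.inl rfl)) 2 Nat.prime_two h1
  refine isPi_of_orders fun h hh s hs hord => ?_
  by_contra hsπ
  have hs2 : s ≠ 2 := fun h => hsπ (h ▸ h2π)
  set y := g * x * g⁻¹ with hy
  have hyN : y ∈ N := Subgroup.Normal.conj_mem inferInstance x hxN g
  have hy2 : y ^ 2 ∈ M := by
    rw [hy, conj_pow]
    exact Subgroup.Normal.conj_mem inferInstance _ hx2 g
  let q : G →* G ⧸ M := QuotientGroup.mk' M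
  have hq : ∀ a : G, q a = 1 ↔ a ∈ M := fun a => QuotientGroup.eq_one_iff a
  have hX : q x * q x = 1 := by
    rw [← map_mul, ← pow_two]
    exact (hq _).2 hx2
  have hY : q y * q y = 1 := by
    rw [← map_mul, ← pow_two]
    exact (hq _).2 hy2
  have hYi : (q y)⁻¹ = q y := inv_eq_of_mul_eq_one_left hY
  have hqh : q h ∈ Subgroup.closure {q x, q y} := by
    have h1 : q h ∈ (Subgroup.closure {x, y}).map q := Subgroup.mem_map_of_mem q hh
    rw [MonoidHom.map_closure, Set.image_pair] at h1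
    exact h1
  have hhM : h ∉ M := fun hm => hsπ (hM.orderOf hm s hs (hord ▸ dvd_rfl))
  have hcop : ∀ t : ℕ, ¬ s ∣ t → q h ^ t = 1 → False := by
    intro t ht hqt
    have h1 : orderOf (q h) ∣ t := orderOf_dvd_of_pow_eq_one hqt
    have h3 : orderOf (q h) ∣ s := hord ▸ orderOf_map_dvd q h
    have h4 : Nat.Coprime s t := (Nat.Prime.coprime_iff_not_dvd hs).2 ht
    have h5 : orderOf (q h) = 1 := Nat.eq_one_of_dvd_coprimes h4 h3 h1
    exact hhM ((hq h).1 (orderOf_eq_one_iff.1 h5))
  have hs2' : ¬ s ∣ 2 := fun hd => hs2 ((Nat.prime_dvd_prime_iff_eq hs Nat.prime_two).1 hd)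
  -- the element `w`
  let w : G := x * (y * x * y⁻¹)
  have hw : ¬ s ∣ orderOf w := by
    intro hd
    refine hsπ ((hx y hyN).orderOf (x := w) ?_ s hs hd)
    exact mul_mem (Subgroup.subset_closure (Or.inl rfl))
      (Subgroup.subset_closure (Or.inr rfl))
  have hqw : (q x * q y) ^ 2 = q w := by
    simp only [w, map_mul, map_inv, hYi, pow_two, mul_assoc]
  rcases dihedral (q x) (q y) hX hY (q h) hqh with ⟨i, hi⟩ | ⟨i, hi⟩
  · refine hcop (2 * orderOf w) (fun hd => ?_) ?_
    · rcases hs.dvd_mul.1 hd with h1 | h1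
      · exact hs2' h1
      · exact hw h1
    · rw [hi, ← zpow_natCast, ← zpow_mul, mul_comm, zpow_mul, zpow_natCast, pow_mul, hqw,
        ← map_pow, pow_orderOf_eq_one, map_one, one_zpow]
  · refine hcop 2 hs2' ?_
    have h1 : q x * (q x * q y) ^ i * (q x * (q x * q y) ^ i) = 1 := by
      have hXi : (q x)⁻¹ = q x := inv_eq_of_mul_eq_one_left hX
      have h2 : q x * (q x * q y) * (q x)⁻¹ = (q x * q y)⁻¹ := by
        rw [mul_inv_rev, hXi, hYi, ← mul_assoc, hX, one_mul]
      have h3 : (q x * (q x * q y) * (q x)⁻¹) ^ i = q x * (q x * q y) ^ i * (q x)⁻¹ := conj_zpow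
      rw [h2, hXi] at h3
      rw [← mul_assoc, ← h3, inv_zpow, inv_mul_cancel]
    rw [hi, pow_two, h1]

lemma normal_closure_conj (x : G) : (Subgroup.closure {y : G | IsConj x y}).Normal := by
  constructor
  intro a ha g
  induction ha using Subgroup.closure_induction with
  | mem y hy =>
    refine Subgroup.subset_closure ?_
    exact IsConj.trans (show IsConj x y from hy) (isConj_iff.2 ⟨g, rfl⟩)
  | one => simp
  | mul a b _ _ iha ihb =>
    have : g * (a * b) * g⁻¹ = (g * a * g⁻¹) * (g * b * g⁻¹) := by group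
    rw [this]
    exact mul_mem iha ihb
  | inv a _ ih =>
    have : g * a⁻¹ * g⁻¹ = (g * a * g⁻¹)⁻¹ := by group
    rw [this]
    exact inv_mem ih

/-- All pairs of conjugates generate `π`-groups if the pairs with first entry `x` do. -/
lemma pairs_of_pairs [Finite G] {x : G}
    (hx : ∀ g : G, IsPiSubgroup π (Subgroup.closure {x, g * x * g⁻¹})) (a b : G)
    (ha : IsConj x a) (hb : IsConj x b) : IsPiSubgroup π (Subgroup.closure {a, b}) := by
  obtain ⟨c, rfl⟩ := isConj_iff.1 ha
  obtain ⟨d, rfl⟩ := isConj_iff.1 hb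
  have h1 := hx (c⁻¹ * d)
  have h2 : Subgroup.closure {c * x * c⁻¹, d * x * d⁻¹} =
      (Subgroup.closure {x, (c⁻¹ * d) * x * (c⁻¹ * d)⁻¹}).map (MulAut.conj c).toMonoidHom := by
    rw [MonoidHom.map_closure, Set.image_pair]
    congr 2
    simp [MulAut.conj_apply, mul_assoc]
  intro p hp hpd
  rw [h2, Subgroup.card_map_of_injective (MulAut.conj c).injective] at hpd
  exact h1 p hp hpd

lemma conj_pow_mem {H : Subgroup G} {c x : G} (m : ℕ) (h : c * x * c⁻¹ ∈ H) :
    c * x ^ m * c⁻¹ ∈ H := by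
  rw [← conj_pow]
  exact H.pow_mem h m

/-- Elements of `2`-power order modulo the radical. -/
lemma two_elements [Finite G] (hG : IsBS π G) (N : Subgroup G) [N.Normal] (M : Subgroup G)
    [M.Normal] (hM : IsPiSubgroup π M)
    (hmax : ∀ K : Subgroup G, K.Normal → IsPiSubgroup π K → K ≤ M) (k : ℕ) :
    ∀ x ∈ N, x ^ 2 ^ k ∈ M →
      (∀ n ∈ N, IsPiSubgroup π (Subgroup.closure {x, n * x * n⁻¹})) → x ∈ M := by
  induction k with
  | zero =>
    intro x _ hx _
    rwa [pow_zero, pow_one] at hx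
  | succ k ih =>
    intro x hxN hxk hx
    by_contra hxM
    have h2 : x ^ 2 ∈ M := by
      refine ih (x ^ 2) (N.pow_mem hxN 2) ?_ fun n hn => (hx n hn).mono ?_
      · rw [← pow_mul, ← pow_succ']
        exact hxk
      · rw [Subgroup.closure_le]
        rintro y (rfl | rfl)
        · exact Subgroup.pow_mem (Subgroup.closure {x, n * x * n⁻¹})
            (Subgroup.subset_closure (Or.inl rfl)) 2
        · exact conj_pow_mem 2 (Subgroup.subset_closure (Or.inr rfl))
    have h3 := step M N hM x hxN h2 hxM hx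
    have h4 := hG x (pairs_of_pairs h3)
    exact hxM (hmax _ (normal_closure_conj x) h4 (Subgroup.subset_closure (IsConj.refl x)))

/-- Membership can be tested on powers of prime power order. -/
lemma mem_of_primePow [Finite G] (M : Subgroup G) [M.Normal] (x : G)
    (h : ∀ (m p k : ℕ), p.Prime → orderOf (x ^ m) = p ^ k → x ^ m ∈ M) : x ∈ M := by
  rw [← QuotientGroup.eq_one_iff, ← orderOf_eq_one_iff]
  by_contra hne
  obtain ⟨p, hp, hpd⟩ := Nat.exists_prime_and_dvd hne
  have hn : orderOf x ≠ 0 := (orderOf_pos x).ne'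
  obtain ⟨k, m, hpm, hkm⟩ := Nat.exists_eq_pow_mul_and_not_dvd hn p hp.ne_one
  have hm : m ≠ 0 := by rintro rfl; exact hpm (dvd_zero p)
  have h1 : orderOf (x ^ m) = p ^ k := by
    rw [orderOf_pow_of_dvd hm (hkm ▸ Dvd.intro_left _ rfl), hkm]
    exact Nat.mul_div_cancel _ (Nat.pos_of_ne_zero hm)
  have h2 := h m p k hp h1
  have h3 : ((x : G ⧸ M)) ^ m = 1 := by
    rw [← QuotientGroup.mk_pow]
    exact (QuotientGroup.eq_one_iff _).2 h2
  exact hpm (hpd.trans (orderOf_dvd_of_pow_eq_one h3))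

end

/-- Let `G` be a finite `BS_π`-group and `N` a normal subgroup of `G`. Then the conjugacy classes in
`N` of the elements of `2`-power order satisfy the `BS_π`-condition, and if the conjugacy classes
in `N` of the elements of odd prime power order satisfy it, then `N` is a `BS_π`-group. -/
theorem result (π : Set ℕ) (G : Type) [Group G] [Finite G] (hG : IsBS π G) (N : Subgroup G)
    [N.Normal] :
    (∀ (x : N) (k : ℕ), orderOf x = 2 ^ k → BSAt π x) ∧
    ((∀ (x : N) (p k : ℕ), p.Prime → p ≠ 2 → orderOf x = p ^ k → BSAt π x) → IsBS π N) := by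
  have hpart1 : ∀ (x : N) (k : ℕ), orderOf x = 2 ^ k → BSAt π x := by
    intro x k hk hx
    obtain ⟨M, hMn, hM, hmax⟩ := exists_radical π G
    have h1 : (x : G) ∈ M := by
      refine two_elements hG N M hM hmax k x x.2 ?_ fun n hn => ?_
      · rw [← hk, ← Subgroup.orderOf_coe, pow_orderOf_eq_one]
        exact M.one_mem
      · have h2 := hx x (⟨n, hn⟩ * x * ⟨n, hn⟩⁻¹) (IsConj.refl x) (isConj_iff.2 ⟨_, rfl⟩)
        have h3 : Subgroup.closure {(x : G), n * x * n⁻¹} =
            (Subgroup.closure {x, ⟨n, hn⟩ * x * ⟨n, hn⟩⁻¹}).map N.subtype := by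
          rw [MonoidHom.map_closure, Set.image_pair]
          rfl
        intro p hp hpd
        rw [h3, Subgroup.card_map_of_injective N.subtype_injective] at hpd
        exact h2 p hp hpd
    have h4 : Subgroup.closure {y : N | IsConj x y} ≤ M.subgroupOf N := by
      rw [Subgroup.closure_le]
      intro y hy
      obtain ⟨c, rfl⟩ := isConj_iff.1 (show IsConj x y from hy)
      rw [SetLike.mem_coe, Subgroup.mem_subgroupOf]
      exact hMn.conj_mem _ h1 _
    intro p hp hpd
    refine hM p hp (hpd.trans ((Subgroup.card_dvd_of_le h4).trans ?_))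
    rw [← Subgroup.card_map_of_injective (f := N.subtype) N.subtype_injective
      (K := M.subgroupOf N)]
    refine Subgroup.card_dvd_of_le ?_
    rintro _ ⟨y, hy, rfl⟩
    exact hy
  refine ⟨hpart1, fun hodd x hx => ?_⟩
  obtain ⟨M, hMn, hM, hmax⟩ := exists_radical π N
  have h1 : x ∈ M := by
    refine mem_of_primePow M x fun m p k hp hord => ?_
    have h2 : BSAt π (x ^ m) := by
      by_cases hp2 : p = 2
      · subst hp2
        exact hpart1 _ k hord
      · exact hodd _ p k hp hp2 hord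
    refine hmax _ (normal_closure_conj (x ^ m)) (h2 fun a b ha hb => ?_)
      (Subgroup.subset_closure (IsConj.refl _))
    obtain ⟨c, rfl⟩ := isConj_iff.1 ha
    obtain ⟨d, rfl⟩ := isConj_iff.1 hb
    refine (hx (c * x * c⁻¹) (d * x * d⁻¹) (isConj_iff.2 ⟨c, rfl⟩)
      (isConj_iff.2 ⟨d, rfl⟩)).mono ?_
    rw [Subgroup.closure_le]
    rintro y (rfl | rfl)
    · exact conj_pow_mem m (Subgroup.subset_closure (Or.inl rfl))
    · exact conj_pow_mem m (Subgroup.subset_closure (Or.inr rfl))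
  refine hM.mono ?_
  rw [Subgroup.closure_le]
  intro y hy
  obtain ⟨c, rfl⟩ := isConj_iff.1 (show IsConj x y from hy)
  exact hMn.conj_mem _ h1 _

end Pool.Agent.Results.MP_c744b8_al.OddReduction
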